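import Pool.Agent.J4H45.SB.Main

/-!
# The sample size of the sample-based tester of planar convexity has order `n ^ (2/3)`

Definitions (in `Pool/Agent/J4H45/SB/Defs.lean`): `Pt` is the plane; `GenPos S`: no three points of
`S` are collinear; `Cvx S`: no point of `S` is in the convex hull of the others (every point of `S`
is a vertex of the convex hull); `Far ε S`: every convex subset of `S` has at most
`(1 - ε) |S|` points; `acc S s`: the proportion of the convex sets among the subsets of `S` with `s`
elements; `sp ε p n`: the least `s` such that `acc S s ≤ p` for all configurations `S` of `n` points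
in general position which are `ε`-far from convex.

Idea of the upper bound.  A configuration `ε`-far from convex has `ε n / 4` disjoint quadruples
`a, b, c, d` with `d` in the triangle `a b c`. For every further point `x` the point `d` is in the
triangle formed by `x` and two of `a, b, c`. So for each quadruple some triple, say `a, b, d`,
gives a witness with at least a third of the further points `x`. A sample of size `C n ^ (2/3)`
contains one of these `ε n / 4` disjoint triples with probability close to one (second moment), and
then also one of the many further points `x`.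

The lower bound (known) uses a sawtooth configuration.
-/

set_option autoImplicit false

namespace Pool.Agent.Results.MP_e76d88_lc.SampleSizeOrder

open Pool.Agent.J4H45.SB

theorem result :
    (∀ p : ℝ, 0 < p → p < 1 → ∃ c C : ℝ, 0 < c ∧ 0 < C ∧ ∃ n0 : ℕ, ∀ n ≥ n0,
      c * (n : ℝ) ^ (2 / 3 : ℝ) ≤ sp (1 / 4) p n ∧
        (sp (1 / 4) p n : ℝ) ≤ C * (n : ℝ) ^ (2 / 3 : ℝ)) ∧
    (∀ ε p : ℝ, 0 < ε → ε < 1 → 0 < p → ∃ C : ℝ, 0 < C ∧ ∃ n0 : ℕ, ∀ n ≥ n0,
      (sp ε p n : ℝ) ≤ C * (n : ℝ) ^ (2 / 3 : ℝ)) := by
  refine ⟨fun p hp hp1 => ?_, fun ε p hε hε1 hp => upper hε hε1 hp⟩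
  obtain ⟨C, hC, n0, h⟩ := upper (ε := 1 / 4) (p := p) (by norm_num) (by norm_num) hp
  refine ⟨(3 * (1 - p)) ^ (1 / 3 : ℝ), C, ?_, hC, max 8 n0, fun n hn => ?_⟩
  · have : 0 < 3 * (1 - p) := by linarith
    positivity
  · exact ⟨lower hp hp1 (le_of_max_le_left hn), h n (le_of_max_le_right hn)⟩

end Pool.Agent.Results.MP_e76d88_lc.SampleSizeOrder
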